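import Pool.Agent.N695.NF.Height

/-!
# Composition
-/

set_option autoImplicit false

namespace Pool.Agent.N695.NF

open Polynomial Finset
open scoped Polynomial.Bivariate
open Pool.Agent.TH456.TM Pool.Agent.R356

/-- `f` has degree at most `D` in each variable and coefficients of absolute value at most `H` -/
def Bdd (D : ℕ) (H : ℝ) (f : ℤ[X][Y]) : Prop :=
  f.natDegree ≤ D ∧ ∀ j, (f.coeff j).natDegree ≤ D ∧ ∀ i, |((f.coeff j).coeff i : ℝ)| ≤ H

/-- `P` has degree at most `D` and coefficients of absolute value at most `H` -/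
def Bdd1 (D : ℕ) (H : ℝ) (P : ℤ[X]) : Prop :=
  P.natDegree ≤ D ∧ ∀ i, |(P.coeff i : ℝ)| ≤ H

lemma len_le (D : ℕ) (H : ℝ) (P : ℤ[X]) (h : Bdd1 D H P) :
    len (fun z : ℤ => |(z : ℝ)|) P ≤ (D + 1) * H := by
  rw [len_eq isLen_int P (D + 1) (by have := h.1; omega)]
  calc ∑ i ∈ range (D + 1), |((P.coeff i : ℤ) : ℝ)| ≤ ∑ _i ∈ range (D + 1), H :=
        Finset.sum_le_sum fun i _ => h.2 i
    _ = _ := by rw [Finset.sum_const, card_range, nsmul_eq_mul]; push_cast; ring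

lemma len2_le (D : ℕ) (H : ℝ) (f : ℤ[X][X]) (h : Bdd D H f) : len2 f ≤ (D + 1) ^ 2 * H := by
  show len (len fun z : ℤ => |(z : ℝ)|) f ≤ _
  rw [len_eq isLen_int.poly f (D + 1) (by have := h.1; omega)]
  calc ∑ i ∈ range (D + 1), len (fun z : ℤ => |(z : ℝ)|) (f.coeff i)
      ≤ ∑ _i ∈ range (D + 1), ((D : ℝ) + 1) * H :=
        Finset.sum_le_sum fun i _ => len_le D H _ (h.2 i)
    _ = _ := by rw [Finset.sum_const, card_range, nsmul_eq_mul]; push_cast; ring

lemma aeval_eq (D : ℕ) (f : ℤ[X][X]) (P : ℤ[X]) (h : P.natDegree ≤ D) :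
    aeval f P = ∑ k ∈ range (D + 1), C (C (P.coeff k)) * f ^ k := by
  rw [aeval_eq_sum_range' (show P.natDegree < D + 1 by omega)]
  refine Finset.sum_congr rfl fun k _ => ?_
  rw [zsmul_eq_mul]
  congr 1

lemma comp_natDegree (D : ℕ) (f : ℤ[X][X]) (P : ℤ[X]) (hP : P.natDegree ≤ D)
    (hf : f.natDegree ≤ D) : (aeval f P).natDegree ≤ D * D := by
  rw [aeval_eq D f P hP]
  refine natDegree_sum_le_of_forall_le _ _ fun k hk => ?_
  rw [Finset.mem_range] at hk
  refine natDegree_mul_le.trans ?_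
  rw [natDegree_C, zero_add]
  refine natDegree_pow_le.trans ?_
  exact Nat.mul_le_mul (by omega) hf

lemma comp_inDeg (D : ℕ) (f : ℤ[X][X]) (P : ℤ[X]) (hP : P.natDegree ≤ D)
    (hf : InDeg D f) : InDeg (D * D) (aeval f P) := by
  rw [inDeg_iff] at hf ⊢
  have h1 : Bivariate.swap (aeval f P) = aeval (Bivariate.swap f) P := by
    rw [aeval_eq D f P hP, aeval_eq D _ P hP, map_sum]
    refine Finset.sum_congr rfl fun k _ => ?_
    rw [map_mul, map_pow, Bivariate.swap_C_C]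
  rw [h1]
  exact comp_natDegree D _ P hP hf

lemma comp_len (D : ℕ) (H : ℝ) (hH : 1 ≤ H) (f : ℤ[X][X]) (P : ℤ[X]) (hf : Bdd D H f)
    (hP : Bdd1 D H P) : len2 (aeval f P) ≤ ((D + 1) ^ (2 * D + 1)) * H ^ (D + 1) := by
  rw [aeval_eq D f P hP.1]
  refine (isLen2.sum _ _).trans ?_
  have h1 := len2_le D H f hf
  have hB : (1 : ℝ) ≤ ((D : ℝ) + 1) ^ 2 * H := by
    have h2 : (1 : ℝ) ≤ ((D : ℝ) + 1) ^ 2 := one_le_pow₀ (by
      have : (0 : ℝ) ≤ D := Nat.cast_nonneg _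
      linarith)
    nlinarith
  have key : ∀ k ∈ range (D + 1), len2 (C (C (P.coeff k)) * f ^ k) ≤
      H * (((D : ℝ) + 1) ^ 2 * H) ^ D := by
    intro k hk
    rw [Finset.mem_range] at hk
    refine (isLen2.mul _ _).trans ?_
    have h2 : len2 (C (C (P.coeff k))) ≤ H := by
      rw [len2_CC]
      exact hP.2 k
    have h3 : len2 (f ^ k) ≤ (len2 f) ^ k := by
      have h4 := isLen2.prod (range k) (fun _ => f)
      simpa using h4
    have h4 : (len2 f) ^ k ≤ (((D : ℝ) + 1) ^ 2 * H) ^ D :=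
      (pow_le_pow_left₀ (isLen2.nonneg _) h1 k).trans (pow_le_pow_right₀ hB (by omega))
    exact mul_le_mul h2 (h3.trans h4) (isLen2.nonneg _) (by linarith)
  refine (Finset.sum_le_sum key).trans ?_
  rw [Finset.sum_const, card_range, nsmul_eq_mul]
  push_cast
  rw [mul_pow, ← pow_mul, pow_succ ((D : ℝ) + 1) (2 * D), pow_succ H D]
  apply le_of_eq
  ring

end Pool.Agent.N695.NF
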