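import Pool.Agent.N695.NF.Two

/-!
# Counting, and distances from algebraic numbers
-/

set_option autoImplicit false

namespace Pool.Agent.N695.NF

open Polynomial Finset
open Pool.Agent.TH456.TM Pool.Agent.R356

/-- the height of `(a, b, P)` -/
noncomputable def hh (p : (ℤ × ℤ) × ℤ[X]) : ℝ :=
  max (max |(p.1.1 : ℝ)| |(p.1.2 : ℝ)|) (ht p.2)

/-- the normalised triples `(a, b, P)` with `|P (a t + b x)| ≤ h ^ (-w)` -/
def NearSet (x t : ℂ) (D : ℕ) (w : ℝ) : Set ((ℤ × ℤ) × ℤ[X]) :=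
  {p | IsCoprime p.1.1 p.1.2 ∧ (0 < p.1.1 ∨ p.1.1 = 0 ∧ 0 < p.1.2) ∧ Irreducible p.2 ∧
    1 ≤ p.2.natDegree ∧ p.2.natDegree ≤ D ∧ 0 < p.2.leadingCoeff ∧
    ‖aeval ((p.1.1 : ℂ) * t + p.1.2 * x) p.2‖ ≤ hh p ^ (-w)}

lemma fin_bounded (D : ℕ) (Y : ℝ) :
    {p : (ℤ × ℤ) × ℤ[X] | p.2.natDegree ≤ D ∧ hh p ≤ Y}.Finite := by
  have h1 : {z : ℤ | |(z : ℝ)| ≤ Y}.Finite := by
    refine (Set.finite_Icc (-⌈Y⌉) ⌈Y⌉).subset fun z hz => ?_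
    rw [Set.mem_setOf_eq, abs_le] at hz
    have h2 := Int.le_ceil Y
    constructor
    · have : ((-⌈Y⌉ : ℤ) : ℝ) ≤ z := by push_cast; linarith [hz.1]
      exact_mod_cast this
    · have : (z : ℝ) ≤ (⌈Y⌉ : ℤ) := by linarith [hz.2]
      exact_mod_cast this
  refine ((h1.prod h1).prod (fin_set1 D Y)).subset ?_
  rintro ⟨⟨a, b⟩, P⟩ ⟨hP, hY⟩
  unfold hh at hY
  rw [max_le_iff, max_le_iff] at hY
  exact ⟨⟨hY.1.1, hY.1.2⟩, hP, hY.2⟩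

/-- **The near algebraic values of all primitive forms together are sparse.** -/
theorem count (x : ℂ) (D : ℕ) (κ : ℝ) (hκ : 0 < κ)
    (h2 : ∀ T : ℝ, ∃ c : ℝ, 0 < c ∧ ∀ t : ℂ, ‖t‖ ≤ T → ∀ H : ℝ, ∀ (a b a' b' : ℤ) (P P' : ℤ[X]),
      IsCoprime a b → IsCoprime a' b' →
      |(a : ℝ)| ≤ H → |(b : ℝ)| ≤ H → |(a' : ℝ)| ≤ H → |(b' : ℝ)| ≤ H → P ≠ 0 → P' ≠ 0 →
      Bdd1 D H P → Bdd1 D H P' → ‖aeval ((a : ℂ) * t + b * x) P‖ ≤ c * H ^ (-κ) →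
      ‖aeval ((a' : ℂ) * t + b' * x) P'‖ ≤ c * H ^ (-κ) → Same a b a' b' P P')
    (t : ℂ) (w ρ : ℝ) (hρ : 1 < ρ) (hρw : ρ < w / κ) :
    ∃ C : ℝ, ∀ X : ℝ, 3 ≤ X → {p ∈ NearSet x t D w | hh p ≤ X}.Finite ∧
      ({p ∈ NearSet x t D w | hh p ≤ X}.ncard : ℝ) ≤ Real.log (Real.log X) / Real.log ρ + C := by
  obtain ⟨c, hc, h2⟩ := h2 ‖t‖
  have hw : 0 < w := by
    rw [lt_div_iff₀ hκ] at hρw
    nlinarith
  refine Pool.Agent.TH647.NR.count_of_gap (NearSet x t D w) hh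
    (fun Y => (fin_bounded D Y).subset ?_) (c ^ (1 / κ)) (w / κ) ρ (by positivity) hρ hρw ?_
  · rintro p ⟨hp, hpY⟩
    exact ⟨hp.2.2.2.2.1, hpY⟩
  · rintro ⟨⟨a, b⟩, P⟩ hp ⟨⟨a', b'⟩, P'⟩ hq hne hle h1
    obtain ⟨p1, p2, p3, p4, p5, p6, p7⟩ := hp
    obtain ⟨q1, q2, q3, q4, q5, q6, q7⟩ := hq
    obtain ⟨h₁, hh₁⟩ : ∃ h₁ : ℝ, h₁ = hh ((a, b), P) := ⟨_, rfl⟩
    obtain ⟨h₂, hh₂⟩ : ∃ h₂ : ℝ, h₂ = hh ((a', b'), P') := ⟨_, rfl⟩
    rw [← hh₁] at hle h1 p7 ⊢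
    rw [← hh₂] at hle q7 ⊢
    simp only at p1 p2 p3 p4 p5 p6 p7 q1 q2 q3 q4 q5 q6 q7
    have h₁0 : 0 < h₁ := by linarith
    have h₂0 : 0 < h₂ := by linarith
    have b1 : |(a : ℝ)| ≤ h₁ ∧ |(b : ℝ)| ≤ h₁ ∧ (ht P : ℝ) ≤ h₁ := by
      rw [hh₁]
      exact ⟨(le_max_left _ _).trans (le_max_left _ _), (le_max_right _ _).trans (le_max_left _ _),
        le_max_right _ _⟩
    have b2 : |(a' : ℝ)| ≤ h₂ ∧ |(b' : ℝ)| ≤ h₂ ∧ (ht P' : ℝ) ≤ h₂ := by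
      rw [hh₂]
      exact ⟨(le_max_left _ _).trans (le_max_left _ _), (le_max_right _ _).trans (le_max_left _ _),
        le_max_right _ _⟩
    have h3 : c * h₂ ^ (-κ) < h₁ ^ (-w) := by
      by_contra hcon
      push Not at hcon
      have hq7 : h₂ ^ (-w) ≤ h₁ ^ (-w) := Real.rpow_le_rpow_of_nonpos h₁0 hle (by linarith)
      have hs := h2 t le_rfl h₂ a b a' b' P P' p1 q1 (b1.1.trans hle) (b1.2.1.trans hle) b2.1 b2.2.1
        p3.ne_zero q3.ne_zero ⟨p5, fun i => (le_ht P i).trans (b1.2.2.trans hle)⟩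
        ⟨q5, fun i => (le_ht P' i).trans b2.2.2⟩ (p7.trans hcon) ((q7.trans hq7).trans hcon)
      apply hne
      rcases hs with ⟨e1, e2, R, r1, r2, r3, r4⟩ | ⟨e1, e2, R, r1, r2, r3, r4⟩
      · have e3 : Associated P P' :=
          (r1.associated_of_dvd p3 r3).symm.trans (r1.associated_of_dvd q3 r4)
        obtain ⟨v, hv⟩ := e3
        obtain ⟨s, hs, hsr⟩ := Polynomial.isUnit_iff.1 v.isUnit
        rw [← hsr] at hv
        rcases Int.isUnit_iff.1 hs with h4 | h4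
        · rw [h4, C_1, mul_one] at hv
          rw [e1, e2, hv]
        · exfalso
          rw [h4] at hv
          have h5 : P' = -P := by rw [← hv]; simp
          rw [h5, leadingCoeff_neg] at q6
          omega
      · exfalso
        omega
    have h4 : c * h₁ ^ w ≤ h₂ ^ κ := by
      have h5 : h₁ ^ (-w) * h₁ ^ w = 1 := by rw [← Real.rpow_add h₁0]; simp
      have h6 : h₂ ^ (-κ) * h₂ ^ κ = 1 := by rw [← Real.rpow_add h₂0]; simp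
      calc c * h₁ ^ w = (c * h₂ ^ (-κ)) * (h₁ ^ w * h₂ ^ κ) := by
            calc c * h₁ ^ w = c * h₁ ^ w * (h₂ ^ (-κ) * h₂ ^ κ) := by rw [h6, mul_one]
              _ = _ := by ring
        _ ≤ h₁ ^ (-w) * (h₁ ^ w * h₂ ^ κ) :=
            mul_le_mul_of_nonneg_right h3.le (by positivity)
        _ = (h₁ ^ (-w) * h₁ ^ w) * h₂ ^ κ := by ring
        _ = _ := by rw [h5, one_mul]
    have h7 := Real.rpow_le_rpow (by positivity) h4 (show 0 ≤ 1 / κ by positivity)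
    rw [Real.mul_rpow hc.le (by positivity), ← Real.rpow_mul h₁0.le,
      ← Real.rpow_mul h₂0.le, mul_one_div, mul_one_div, div_self hκ.ne', Real.rpow_one] at h7
    exact h7

end Pool.Agent.N695.NF
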