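import Pool.Agent.R356.Joint

/-!
# Degrees and heights of the factors of a polynomial in two variables
-/

set_option autoImplicit false

namespace Pool.Agent.N695.NF

open Polynomial Finset
open scoped Polynomial.Bivariate
open Pool.Agent.TH456.TM Pool.Agent.R356

/-- the degree in the inner variable is additive -/
lemma swap_coeff_coeff (f : ℤ[X][X]) (i j : ℕ) :
    ((Bivariate.swap f).coeff i).coeff j = (f.coeff j).coeff i := by
  induction f using Polynomial.induction_on' with
  | add p q hp hq => simp only [map_add, coeff_add, hp, hq]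
  | monomial n a =>
    induction a using Polynomial.induction_on' with
    | add p q hp hq =>
      rw [map_add, map_add, coeff_add, coeff_add, hp, hq]
      simp only [coeff_add]
    | monomial m r =>
      rw [Bivariate.swap_monomial_monomial]
      by_cases h1 : n = j
      · by_cases h2 : m = i
        · simp [coeff_monomial, h1, h2]
        · simp [coeff_monomial, h1, h2]
      · by_cases h2 : m = i
        · simp [coeff_monomial, h1, h2]
        · simp [coeff_monomial, h1, h2]

/-- all coefficients have degree at most `D` -/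
def InDeg (D : ℕ) (f : ℤ[X][X]) : Prop := ∀ j, (f.coeff j).natDegree ≤ D

lemma inDeg_iff (D : ℕ) (f : ℤ[X][X]) : InDeg D f ↔ (Bivariate.swap f).natDegree ≤ D := by
  constructor
  · intro h
    rw [natDegree_le_iff_coeff_eq_zero]
    intro i hi
    ext j
    rw [swap_coeff_coeff, coeff_zero]
    exact coeff_eq_zero_of_natDegree_lt (lt_of_le_of_lt (h j) hi)
  · intro h j
    rw [natDegree_le_iff_coeff_eq_zero]
    intro i hi
    rw [← swap_coeff_coeff, coeff_eq_zero_of_natDegree_lt (lt_of_le_of_lt h hi), coeff_zero]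

lemma InDeg.left {D : ℕ} {A B : ℤ[X][X]} (hA : A ≠ 0) (hB : B ≠ 0) (h : InDeg D (A * B)) :
    InDeg D A := by
  rw [inDeg_iff] at h ⊢
  rw [map_mul, natDegree_mul ((map_ne_zero_iff _ (Bivariate.swap).injective).2 hA)
    ((map_ne_zero_iff _ (Bivariate.swap).injective).2 hB)] at h
  omega

/-- Kronecker's substitution -/
lemma coeff_eval (M : ℕ) (f : ℤ[X][X]) (hf : ∀ j, (f.coeff j).natDegree < M)
    (i j : ℕ) (hi : i < M) : (f.eval (X ^ M)).coeff (i + M * j) = (f.coeff j).coeff i := by
  rw [eval_eq_sum_range' (show f.natDegree < f.natDegree + j + 1 by omega), finsetSum_coeff]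
  rw [Finset.sum_eq_single j]
  · rw [← pow_mul, coeff_mul_X_pow]
  · intro k _ hk
    rw [← pow_mul]
    rcases Nat.lt_or_gt_of_ne hk with h | h
    · rw [coeff_mul_X_pow']
      split_ifs with h2
      · apply coeff_eq_zero_of_natDegree_lt
        have h3 := hf k
        have h4 : M * k + M ≤ M * j := by nlinarith
        omega
      · rfl
    · rw [coeff_mul_X_pow', if_neg]
      intro h2
      have h4 : M * j + M ≤ M * k := by nlinarith
      omega
  · intro h
    exact absurd (Finset.mem_range.2 (by omega)) h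

lemma eval_natDegree (M D : ℕ) (f : ℤ[X][X]) (hf : ∀ j, (f.coeff j).natDegree < M)
    (hD : f.natDegree ≤ D) : (f.eval (X ^ M)).natDegree ≤ M * (D + 1) := by
  rw [eval_eq_sum_range' (show f.natDegree < D + 1 by omega)]
  refine natDegree_sum_le_of_forall_le _ _ fun k hk => ?_
  rw [Finset.mem_range] at hk
  refine natDegree_mul_le.trans ?_
  rw [← pow_mul, natDegree_X_pow]
  have h1 := hf k
  have h4 : M * k + M ≤ M * (D + 1) := by nlinarith
  omega

/-- **Coefficients of a factor** of a polynomial in two variables. -/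
theorem height_factor2 (D : ℕ) : ∃ K : ℝ, 1 ≤ K ∧ ∀ A B : ℤ[X][X], A ≠ 0 → B ≠ 0 →
    (A * B).natDegree ≤ D → InDeg D (A * B) → ∀ H : ℝ,
    (∀ i j, |((((A * B).coeff j).coeff i : ℤ) : ℝ)| ≤ H) →
    A.natDegree ≤ D ∧ InDeg D A ∧ ∀ i j, |(((A.coeff j).coeff i : ℤ) : ℝ)| ≤ K * H := by
  obtain ⟨E, hE⟩ : ∃ E, E = (D + 1) * (D + 1) := ⟨_, rfl⟩
  refine ⟨2 ^ E * (E + 1), ?_, ?_⟩
  · have h1 : (1 : ℝ) ≤ 2 ^ E := one_le_pow₀ (by norm_num)
    have h2 : (0 : ℝ) ≤ E := Nat.cast_nonneg _
    nlinarith
  intro A B hA hB hD hin H hH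
  have hAin := hin.left hA hB
  have hBin : InDeg D B := (show InDeg D (B * A) by rw [mul_comm]; exact hin).left hB hA
  have hAD : A.natDegree ≤ D := by
    rw [natDegree_mul hA hB] at hD
    omega
  have hBD : B.natDegree ≤ D := by
    rw [natDegree_mul hA hB] at hD
    omega
  have hM : 0 < D + 1 := by omega
  have hA' : ∀ j, (A.coeff j).natDegree < D + 1 := fun j => by have := hAin j; omega
  have hB' : ∀ j, (B.coeff j).natDegree < D + 1 := fun j => by have := hBin j; omega
  have hAB' : ∀ j, ((A * B).coeff j).natDegree < D + 1 := fun j => by have := hin j; omega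
  have ne : ∀ f : ℤ[X][X], f ≠ 0 → (∀ j, (f.coeff j).natDegree < D + 1) → f.eval (X ^ (D + 1)) ≠ 0 := by
    intro f hf hdf h0
    apply hf
    ext j i
    by_cases hi : i < D + 1
    · rw [← coeff_eval (D + 1) f hdf i j hi, h0]
      simp
    · rw [coeff_eq_zero_of_natDegree_lt (lt_of_lt_of_le (hdf j) (by omega))]
      simp
  have h0 : (0 : ℝ) ≤ H := (abs_nonneg _).trans (hH 0 0)
  refine ⟨hAD, hAin, fun i j => ?_⟩
  by_cases hi : i < D + 1
  · rw [← coeff_eval (D + 1) A hA' i j hi]
    refine height_factor E _ (B.eval (X ^ (D + 1))) (ne A hA hA') (ne B hB hB') ?_ H ?_ _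
    · rw [← eval_mul, hE]
      exact eval_natDegree (D + 1) D _ hAB' hD
    · intro k
      rw [← eval_mul]
      have h1 : k = k % (D + 1) + (D + 1) * (k / (D + 1)) := (Nat.mod_add_div k (D + 1)).symm
      rw [h1, coeff_eval (D + 1) (A * B) hAB' _ _ (Nat.mod_lt _ hM)]
      exact hH _ _
  · rw [coeff_eq_zero_of_natDegree_lt (lt_of_lt_of_le (hA' j) (by omega))]
    simp only [Int.cast_zero, abs_zero]
    positivity

end Pool.Agent.N695.NF
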