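import Pool.Agent.N695.NF.Main

/-!
# Linear forms
-/

set_option autoImplicit false

namespace Pool.Agent.N695.NF

open Polynomial Finset
open scoped Polynomial.Bivariate
open Pool.Agent.TH456.TM Pool.Agent.R356

/-- the linear form `a y + b x` -/
noncomputable def lin (a b : ℤ) : ℤ[X][X] := C (C a) * X + C (C b * X)

/-- the substitution `x ↦ a y + b x`, `y ↦ c y + d x` -/
noncomputable def sub (a b c d : ℤ) : ℤ[X][X] →+* ℤ[X][X] :=
  eval₂RingHom ((aeval (lin a b) : ℤ[X] →ₐ[ℤ] ℤ[X][X]) : ℤ[X] →+* ℤ[X][X]) (lin c d)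

lemma sub_X (a b c d : ℤ) : sub a b c d X = lin c d := by
  unfold sub
  rw [coe_eval₂RingHom, eval₂_X]

lemma sub_C (a b c d : ℤ) (P : ℤ[X]) : sub a b c d (C P) = aeval (lin a b) P := by
  unfold sub
  rw [coe_eval₂RingHom, eval₂_C]
  rfl

lemma sub_lin (a b c d a' b' : ℤ) : sub a b c d (lin a' b') = lin (a' * c + b' * a) (a' * d + b' * b) := by
  unfold lin
  rw [map_add, map_mul, sub_C, sub_X, sub_C, aeval_C, map_mul, aeval_C, aeval_X]
  unfold lin
  simp only [map_mul, map_add, eq_intCast, map_intCast]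
  ring

lemma sub_sub (a b c d a' b' c' d' : ℤ)
    (h1 : a' * c + b' * a = 0) (h2 : a' * d + b' * b = 1) (h3 : c' * c + d' * a = 1)
    (h4 : c' * d + d' * b = 0) : (sub a b c d).comp (sub a' b' c' d') = RingHom.id _ := by
  refine Polynomial.ringHom_ext' ?_ ?_
  · refine Polynomial.ringHom_ext' (RingHom.ext_int _ _) ?_
    simp only [RingHom.comp_apply, RingHom.id_apply]
    rw [sub_C, aeval_X, sub_lin, h1, h2]
    unfold lin
    simp
  · simp only [RingHom.comp_apply, RingHom.id_apply]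
    rw [sub_X, sub_lin, h3, h4]
    unfold lin
    simp

/-- **Irreducibility of `P (a y + b x)`.** -/
theorem irreducible_comp (a b : ℤ) (h : IsCoprime a b) (P : ℤ[X]) (hP : Irreducible P) :
    Irreducible (aeval (lin a b) P) := by
  obtain ⟨u, v, huv⟩ := h
  -- x ↦ a y + b x, y ↦ - v y + u x; inverse x ↦ a y + v x, y ↦ - b y + u x
  have h1 : (sub a b (-v) u).comp (sub a v (-b) u) = RingHom.id _ := by
    apply sub_sub
    · ring
    · linear_combination huv
    · linear_combination huv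
    · ring
  have h2 : (sub a v (-b) u).comp (sub a b (-v) u) = RingHom.id _ := by
    apply sub_sub
    · ring
    · linear_combination huv
    · linear_combination huv
    · ring
  let e : ℤ[X][X] ≃+* ℤ[X][X] := RingEquiv.ofRingHom _ _ h1 h2
  have h3 : aeval (lin a b) P = e (C P) := (sub_C a b (-v) u P).symm
  rw [h3, MulEquiv.irreducible_iff]
  exact (Polynomial.prime_C_iff.2 hP.prime).irreducible

/-- evaluation at a point of `ℤ[s]` -/
noncomputable def pt (p q : ℤ[X]) : ℤ[X][X] →+* ℤ[X] :=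
  eval₂RingHom ((aeval p : ℤ[X] →ₐ[ℤ] ℤ[X]) : ℤ[X] →+* ℤ[X]) q

lemma pt_lin (p q : ℤ[X]) (a b : ℤ) : pt p q (lin a b) = C a * q + C b * p := by
  unfold pt lin
  rw [map_add, map_mul, coe_eval₂RingHom, eval₂_C, eval₂_X, eval₂_C]
  simp only [RingHom.coe_coe, map_mul, aeval_X, eq_intCast,
    map_intCast]

lemma pt_aeval (p q : ℤ[X]) (f : ℤ[X][X]) (P : ℤ[X]) :
    pt p q (aeval f P) = aeval (pt p q f) P := by
  have h : (pt p q).comp (aeval f : ℤ[X] →ₐ[ℤ] ℤ[X][X]).toRingHom =
      (aeval (pt p q f) : ℤ[X] →ₐ[ℤ] ℤ[X]).toRingHom := by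
    refine Polynomial.ringHom_ext' (RingHom.ext_int _ _) ?_
    simp
  exact RingHom.congr_fun h P

lemma natDegree_aeval (p : ℤ[X]) (P : ℤ[X]) : (aeval p P).natDegree = P.natDegree * p.natDegree := by
  rw [← Polynomial.comp_eq_aeval, natDegree_comp]

/-- **Uniqueness of the linear form.** -/
theorem lin_unique (a b a' b' : ℤ) (h : IsCoprime a b) (h' : IsCoprime a' b') (P P' : ℤ[X])
    (hP : 1 ≤ P.natDegree) (heq : aeval (lin a b) P = aeval (lin a' b') P') :
    (a' = a ∧ b' = b ∧ P' = P) ∨ (a' = -a ∧ b' = -b ∧ P' = P.comp (-X)) := by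
  have hprop : a * b' = a' * b := by
    by_contra hne
    have h1 := congrArg (pt (C a' * X) (-(C b' * X))) heq
    rw [pt_aeval, pt_aeval, pt_lin, pt_lin] at h1
    have e1 : C a' * -(C b' * X) + C b' * (C a' * X) = (0 : ℤ[X]) := by ring
    have e2 : C a * -(C b' * X) + C b * (C a' * X) = C (a' * b - a * b') * (X : ℤ[X]) := by
      simp only [C_sub, C_mul]
      ring
    rw [e1, e2] at h1
    have h2 := congrArg natDegree h1
    rw [natDegree_aeval, natDegree_aeval, natDegree_zero, mul_zero,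
      natDegree_C_mul_X _ (sub_ne_zero.2 (Ne.symm hne))] at h2
    omega
  have hsign : (a' = a ∧ b' = b) ∨ (a' = -a ∧ b' = -b) := by
    obtain ⟨u, v, huv⟩ := h
    obtain ⟨u', v', huv'⟩ := h'
    -- a' = k a, b' = k b with k = u a' + v b'
    have k1 : a' = (u * a' + v * b') * a := by linear_combination (-a') * huv - v * hprop
    have k2 : b' = (u * a' + v * b') * b := by linear_combination (-b') * huv + u * hprop
    have k3 : (u * a' + v * b') * (u' * a + v' * b) = 1 := by
      linear_combination huv' - u' * k1 - v' * k2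
    have k4 := Int.isUnit_iff.1 (IsUnit.of_mul_eq_one _ k3)
    rcases k4 with k4 | k4
    · left; rw [k4] at k1 k2; constructor <;> linarith
    · right; rw [k4] at k1 k2; constructor <;> linarith
  obtain ⟨u, v, huv⟩ := h
  have h1 := congrArg (pt (C v * X) (C u * X)) heq
  rw [pt_aeval, pt_aeval, pt_lin, pt_lin] at h1
  have e1 : C a * (C u * X) + C b * (C v * X) = (X : ℤ[X]) := by
    have h2 : C a * (C u * X) + C b * (C v * X) = C (u * a + v * b) * (X : ℤ[X]) := by
      simp only [C_add, C_mul]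
      ring
    rw [h2, huv, C_1, one_mul]
  rcases hsign with ⟨ha, hb⟩ | ⟨ha, hb⟩
  · left
    refine ⟨ha, hb, ?_⟩
    rw [ha, hb, e1] at h1
    simpa using h1.symm
  · right
    refine ⟨ha, hb, ?_⟩
    have e2 : C (-a) * (C u * X) + C (-b) * (C v * X) = -(X : ℤ[X]) := by
      have e3 : C (-a) * (C u * X) + C (-b) * (C v * X) =
          -(C a * (C u * X) + C b * (C v * X) : ℤ[X]) := by
        rw [C_neg, C_neg]
        ring
      rw [e3, e1]
    rw [ha, hb, e1, e2] at h1
    have h3 : (aeval (X : ℤ[X]) P).comp (-X) = (aeval (-X : ℤ[X]) P').comp (-X) := by rw [h1]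
    rw [← Polynomial.comp_eq_aeval, ← Polynomial.comp_eq_aeval, comp_X, comp_assoc] at h3
    simp only [neg_comp, X_comp, neg_neg, comp_X] at h3
    exact h3.symm

end Pool.Agent.N695.NF
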