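import Pool.Agent.N695.NF.Comp

/-!
# At every scale all near algebraic values come from one curve
-/

set_option autoImplicit false

namespace Pool.Agent.N695.NF

open Polynomial Finset
open scoped Polynomial.Bivariate
open Pool.Agent.TH456.TM Pool.Agent.R356

/-- the sum of the two degrees -/
noncomputable def tdeg (F : ℤ[X][X]) : ℕ := F.natDegree + (Bivariate.swap F).natDegree

lemma swap_ne (F : ℤ[X][X]) (hF : F ≠ 0) : Bivariate.swap F ≠ 0 :=
  (map_ne_zero_iff _ (Bivariate.swap).injective).2 hF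

lemma tdeg_mul (A B : ℤ[X][X]) (hA : A ≠ 0) (hB : B ≠ 0) : tdeg (A * B) = tdeg A + tdeg B := by
  unfold tdeg
  rw [map_mul, natDegree_mul hA hB, natDegree_mul (swap_ne A hA) (swap_ne B hB)]
  omega

lemma const_of_tdeg (F : ℤ[X][X]) (h : tdeg F = 0) : F = C (C ((F.coeff 0).coeff 0)) := by
  unfold tdeg at h
  have h1 : F.natDegree = 0 := by omega
  have h2 : InDeg 0 F := (inDeg_iff 0 F).2 (by omega)
  have h3 := eq_C_of_natDegree_eq_zero h1
  have h4 := eq_C_of_natDegree_le_zero (h2 0)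
  rw [← h4]
  exact h3

lemma tdeg_const (n : ℤ) : tdeg (C (C n)) = 0 := by
  unfold tdeg
  rw [Bivariate.swap_C_C, natDegree_C]

/-- evaluation is multiplicative -/
lemma vl_mul (x t : ℂ) (A B : ℤ[X][X]) : vl x t (A * B) = vl x t A * vl x t B := by
  rw [← evR_apply, ← evR_apply, ← evR_apply, map_mul]

lemma vl_CC (x t : ℂ) (n : ℤ) : vl x t (C (C n)) = n := by
  rw [← evR_apply]
  unfold evR
  simp [σx]

lemma vl_neg (x t : ℂ) (A : ℤ[X][X]) : vl x t (-A) = -vl x t A := by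
  rw [← evR_apply, ← evR_apply, map_neg]

/-- a small polynomial has a small irreducible factor -/
lemma le_of_factors (x t : ℂ) (δ : ℝ) (hδ : 0 < δ) (hδ1 : δ ≤ 1) (F : ℤ[X][X]) (hF : F ≠ 0)
    (h : ∀ Q : ℤ[X][X], Irreducible Q → Q ∣ F → 0 < tdeg Q → δ ≤ ‖vl x t Q‖) :
    δ ^ tdeg F ≤ ‖vl x t F‖ := by
  induction F using WfDvdMonoid.induction_on_irreducible with
  | zero => exact absurd rfl hF
  | unit u hu =>
    obtain ⟨r, hr, hru⟩ := Polynomial.isUnit_iff.1 hu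
    obtain ⟨s, hs, hsr⟩ := Polynomial.isUnit_iff.1 hr
    rw [← hru, ← hsr, tdeg_const, pow_zero, vl_CC, Complex.norm_intCast]
    rcases Int.isUnit_iff.1 hs with h1 | h1 <;> simp [h1]
  | mul a i ha hi ih =>
    have hi0 : i ≠ 0 := hi.ne_zero
    rw [tdeg_mul i a hi0 ha, pow_add, vl_mul, norm_mul]
    refine mul_le_mul ?_ (ih ha fun Q hQ hQa => h Q hQ (dvd_mul_of_dvd_right hQa i)) (by positivity)
      (norm_nonneg _)
    by_cases h0 : tdeg i = 0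
    · rw [h0, pow_zero, const_of_tdeg i h0, vl_CC, Complex.norm_intCast]
      have h1 : (i.coeff 0).coeff 0 ≠ 0 := by
        intro h2
        apply hi0
        rw [const_of_tdeg i h0, h2, C_0, C_0]
      exact_mod_cast Int.one_le_abs h1
    · exact (pow_le_of_le_one hδ.le hδ1 h0).trans
        (h i hi (dvd_mul_right i a) (Nat.pos_of_ne_zero h0))

lemma exists_small_factor (x t : ℂ) (δ : ℝ) (hδ : 0 < δ) (hδ1 : δ ≤ 1) (m : ℕ) (F : ℤ[X][X])
    (hF : F ≠ 0) (hm : tdeg F ≤ m) (h : ‖vl x t F‖ < δ ^ m) :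
    ∃ Q : ℤ[X][X], Irreducible Q ∧ Q ∣ F ∧ 0 < tdeg Q ∧ 0 < Q.leadingCoeff.leadingCoeff ∧
      ‖vl x t Q‖ < δ := by
  by_contra hcon
  push Not at hcon
  have h1 : ∀ Q : ℤ[X][X], Irreducible Q → Q ∣ F → 0 < tdeg Q → δ ≤ ‖vl x t Q‖ := by
    intro Q hQ hQF hQd
    have hl : Q.leadingCoeff.leadingCoeff ≠ 0 := by
      rw [Ne, leadingCoeff_eq_zero, leadingCoeff_eq_zero]
      exact hQ.ne_zero
    rcases lt_or_gt_of_ne hl with h2 | h2
    · have h3 := hcon (-Q) ((Associated.refl Q).neg_right.irreducible hQ) ((neg_dvd).2 hQF) (by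
        unfold tdeg at hQd ⊢
        rw [map_neg, natDegree_neg, natDegree_neg]
        exact hQd) (by
        rw [leadingCoeff_neg, leadingCoeff_neg]
        linarith)
      rwa [vl_neg, norm_neg] at h3
    · exact hcon Q hQ hQF hQd h2
  have h2 := le_of_factors x t δ hδ hδ1 F hF h1
  have h3 : δ ^ m ≤ δ ^ tdeg F := pow_le_pow_of_le_one hδ.le hδ1 hm
  linarith

lemma hgt_le (Q : ℤ[X][X]) (B : ℝ) (hB : 0 ≤ B) (h : ∀ i j, |(((Q.coeff j).coeff i : ℤ) : ℝ)| ≤ B) :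
    (hgt Q : ℝ) ≤ B := by
  have h1 : hgt Q ≤ ⌊B⌋₊ := by
    unfold hgt
    refine Finset.sup_le fun j _ => Finset.sup_le fun i _ => ?_
    apply Nat.le_floor
    rw [Nat.cast_natAbs, Int.cast_abs]
    exact h i j
  exact (Nat.cast_le.2 h1).trans (Nat.floor_le hB)

/-- **At every scale all near algebraic values come from one curve.** -/
theorem curve (x : ℂ) (hx : MeasT x) (D : ℕ) : ∃ κ : ℝ, 0 < κ ∧ ∀ T : ℝ, ∃ c : ℝ, 0 < c ∧
    ∀ t : ℂ, ‖t‖ ≤ T → ∀ H : ℝ, 1 ≤ H → ∃ Q : ℤ[X][X], Irreducible Q ∧ (∀ n : ℤ, Q ≠ C (C n)) ∧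
      ∀ (f : ℤ[X][X]) (P : ℤ[X]), Bdd D H f → Bdd1 D H P → aeval f P ≠ 0 →
        ‖vl x t (aeval f P)‖ ≤ c * H ^ (-κ) → Q ∣ aeval f P := by
  obtain ⟨E, hE⟩ : ∃ E, E = D * D + 1 := ⟨_, rfl⟩
  obtain ⟨κ₁, hκ₁, hcore⟩ := core x hx E (by omega)
  obtain ⟨K, hK1, hK⟩ := height_factor2 E
  obtain ⟨L, hL⟩ : ∃ L : ℝ, L = ((D : ℝ) + 1) ^ (2 * D + 1) := ⟨_, rfl⟩
  have hL1 : 1 ≤ L := by
    rw [hL]
    exact one_le_pow₀ (by
      have : (0 : ℝ) ≤ D := Nat.cast_nonneg _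
      linarith)
  obtain ⟨m, hm⟩ : ∃ m : ℕ, m = 2 * E := ⟨_, rfl⟩
  have hm0 : 0 < m := by omega
  refine ⟨(D + 1) * κ₁ * m, by positivity, fun T => ?_⟩
  obtain ⟨C₁, hC₁, hcore⟩ := hcore T
  obtain ⟨a, ha⟩ : ∃ a : ℝ, a = min 1 (C₁ * (K * L) ^ (-κ₁)) := ⟨_, rfl⟩
  have hKL : 0 < K * L := by positivity
  have ha0 : 0 < a := by rw [ha]; exact lt_min one_pos (by positivity)
  have ha1 : a ≤ 1 := by rw [ha]; exact min_le_left _ _
  have ha2 : a ≤ C₁ * (K * L) ^ (-κ₁) := by rw [ha]; exact min_le_right _ _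
  refine ⟨a ^ m / 2, by positivity, fun t ht H hH => ?_⟩
  have hH0 : 0 < H := by linarith
  obtain ⟨δ, hδ⟩ : ∃ δ : ℝ, δ = a * H ^ (-((D + 1) * κ₁)) := ⟨_, rfl⟩
  have hδ0 : 0 < δ := by rw [hδ]; positivity
  have hδ1 : δ ≤ 1 := by
    have h1 : H ^ (-((D + 1) * κ₁)) ≤ 1 := Real.rpow_le_one_of_one_le_of_nonpos hH (by
      have : 0 < ((D : ℝ) + 1) * κ₁ := by positivity
      linarith)
    have h2 : 0 < H ^ (-(((D : ℝ) + 1) * κ₁)) := by positivity
    rw [hδ]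
    nlinarith
  have hδm : a ^ m / 2 * H ^ (-((D + 1) * κ₁ * m)) < δ ^ m := by
    have h1 : δ ^ m = a ^ m * H ^ (-((D + 1) * κ₁ * m)) := by
      rw [hδ, mul_pow, ← Real.rpow_natCast (H ^ (-((D + 1) * κ₁))) m, ← Real.rpow_mul hH0.le]
      congr 2
      ring
    rw [h1]
    have h2 : 0 < a ^ m * H ^ (-(((D : ℝ) + 1) * κ₁ * m)) := by positivity
    linarith
  -- the small factor of a small value
  have key : ∀ (f : ℤ[X][X]) (P : ℤ[X]), Bdd D H f → Bdd1 D H P → aeval f P ≠ 0 →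
      ‖vl x t (aeval f P)‖ ≤ a ^ m / 2 * H ^ (-((D + 1) * κ₁ * m)) →
      ∃ Q : ℤ[X][X], Q ∈ IR E ∧ Q ∣ aeval f P ∧ 0 < tdeg Q ∧ (hgt Q : ℝ) ≤ K * L * H ^ (D + 1) ∧
        ‖vl x t Q‖ < δ := by
    intro f P hf hP h0 hs
    have hd1 : (aeval f P).natDegree ≤ E := (comp_natDegree D f P hP.1 hf.1).trans (by omega)
    have hd2 : InDeg E (aeval f P) := fun j => by
      have := comp_inDeg D f P hP.1 (fun j => (hf.2 j).1) j
      omega
    have hd3 := comp_len D H hH f P hf hP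
    rw [← hL] at hd3
    obtain ⟨Q, hQ1, ⟨B, hB⟩, hQ3, hQ4, hQ5⟩ := exists_small_factor x t δ hδ0 hδ1 m (aeval f P) h0
      (by
        unfold tdeg
        have := (inDeg_iff E _).1 hd2
        omega) (lt_of_le_of_lt hs hδm)
    have hQ0 : Q ≠ 0 := hQ1.ne_zero
    have hB0 : B ≠ 0 := by
      rintro rfl
      rw [mul_zero] at hB
      exact h0 hB
    obtain ⟨g1, g2, g3⟩ := hK Q B hQ0 hB0 (by rw [← hB]; exact hd1) (by rw [← hB]; exact hd2)
      (L * H ^ (D + 1)) (fun i j => by rw [← hB]; exact (le_len2 _ j i).trans hd3)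
    refine ⟨Q, ⟨hQ1, g1, g2, hQ4⟩, ⟨B, hB⟩, hQ3, hgt_le Q _ (by positivity) fun i j => ?_, hQ5⟩
    rw [mul_assoc]
    exact g3 i j
  by_cases hex : ∃ (f : ℤ[X][X]) (P : ℤ[X]), Bdd D H f ∧ Bdd1 D H P ∧ aeval f P ≠ 0 ∧
      ‖vl x t (aeval f P)‖ ≤ a ^ m / 2 * H ^ (-((D + 1) * κ₁ * m))
  · obtain ⟨f, P, hf, hP, h0, hs⟩ := hex
    obtain ⟨Q, hQ1, hQ2, hQ3, hQ4, hQ5⟩ := key f P hf hP h0 hs
    refine ⟨Q, hQ1.1, ?_, ?_⟩
    · rintro n rfl
      rw [tdeg_const] at hQ3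
      omega
    · intro f' P' hf' hP' h0' hs'
      obtain ⟨Q', hQ1', hQ2', hQ3', hQ4', hQ5'⟩ := key f' P' hf' hP' h0' hs'
      have hQQ : Q = Q' := by
        by_contra hne
        have h1 := hcore t ht Q hQ1 Q' hQ1' hne (K * L * H ^ (D + 1)) hQ4 hQ4'
        have h2 : max ‖vl x t Q‖ ‖vl x t Q'‖ < δ := max_lt hQ5 hQ5'
        have h3 : δ ≤ C₁ * (K * L * H ^ (D + 1)) ^ (-κ₁) := by
          rw [Real.mul_rpow hKL.le (by positivity), ← Real.rpow_natCast H (D + 1),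
            ← Real.rpow_mul hH0.le, hδ]
          have h4 : H ^ (((D + 1 : ℕ) : ℝ) * -κ₁) = H ^ (-((D + 1) * κ₁)) := by
            congr 1
            push_cast
            ring
          rw [h4, ← mul_assoc]
          have h5 : 0 < H ^ (-(((D : ℝ) + 1) * κ₁)) := by positivity
          exact mul_le_mul_of_nonneg_right ha2 h5.le
        linarith
      rw [hQQ]
      exact hQ2'
  · push Not at hex
    refine ⟨X, irreducible_X, ?_, ?_⟩
    · intro n hn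
      have h1 := congrArg natDegree hn
      rw [natDegree_X, natDegree_C] at h1
      omega
    · intro f P hf hP h0 hs
      exact absurd hs (not_le.2 (hex f P hf hP h0))

end Pool.Agent.N695.NF
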