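import Pool.Agent.N695.NF.Lin
import Pool.Agent.TH456.TM.Fam

/-!
# Near algebraic values of primitive linear forms
-/

set_option autoImplicit false

namespace Pool.Agent.N695.NF

open Polynomial Finset
open scoped Polynomial.Bivariate
open Pool.Agent.TH456.TM Pool.Agent.R356

lemma evR_lin (x t : ℂ) (a b : ℤ) : evR x t (lin a b) = a * t + b * x := by
  unfold evR lin
  rw [map_add, map_mul, coe_eval₂RingHom, eval₂_C, eval₂_X, eval₂_C]
  simp [σx]

lemma vl_aeval (x t : ℂ) (f : ℤ[X][X]) (P : ℤ[X]) : vl x t (aeval f P) = aeval (evR x t f) P := by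
  rw [← evR_apply]
  have h : (evR x t).comp (aeval f : ℤ[X] →ₐ[ℤ] ℤ[X][X]).toRingHom =
      (aeval (evR x t f) : ℤ[X] →ₐ[ℤ] ℂ).toRingHom := by
    refine Polynomial.ringHom_ext' (RingHom.ext_int _ _) ?_
    simp
  exact RingHom.congr_fun h P

lemma bdd_lin (D : ℕ) (hD : 1 ≤ D) (H : ℝ) (a b : ℤ) (ha : |(a : ℝ)| ≤ H) (hb : |(b : ℝ)| ≤ H) :
    Bdd D H (lin a b) := by
  have hH : 0 ≤ H := (abs_nonneg _).trans ha
  have hc : ∀ j, (lin a b).coeff j = if j = 0 then C b * X else if j = 1 then C a else 0 := by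
    intro j
    unfold lin
    rw [coeff_add, coeff_C_mul, coeff_X, coeff_C]
    rcases j with _ | _ | j
    · simp
    · simp
    · simp
  refine ⟨?_, fun j => ?_⟩
  · rw [natDegree_le_iff_coeff_eq_zero]
    intro j hj
    rw [hc, if_neg (by omega), if_neg (by omega)]
  · rw [hc]
    split_ifs with h0 h1
    · refine ⟨((natDegree_C_mul_le b X).trans natDegree_X_le).trans hD, fun i => ?_⟩
      rw [coeff_C_mul, coeff_X]
      split_ifs
      · rw [mul_one]; exact hb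
      · simpa using hH
    · refine ⟨by rw [natDegree_C]; omega, fun i => ?_⟩
      rw [coeff_C]
      split_ifs
      · exact ha
      · simpa using hH
    · exact ⟨by simp, fun i => by simpa using hH⟩

lemma pt_lin_self (u v a b : ℤ) (h : u * a + v * b = 1) (P : ℤ[X]) :
    pt (C v * X) (C u * X) (aeval (lin a b) P) = P := by
  rw [pt_aeval, pt_lin]
  have e1 : C a * (C u * X) + C b * (C v * X) = (X : ℤ[X]) := by
    have h2 : C a * (C u * X) + C b * (C v * X) = C (u * a + v * b) * (X : ℤ[X]) := by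
      simp only [C_add, C_mul]
      ring
    rw [h2, h, C_1, one_mul]
  rw [e1]
  simp

lemma aeval_lin_ne (a b : ℤ) (h : IsCoprime a b) (P : ℤ[X]) (hP : P ≠ 0) : aeval (lin a b) P ≠ 0 := by
  obtain ⟨u, v, huv⟩ := h
  intro h0
  apply hP
  rw [← pt_lin_self u v a b huv P, h0, map_zero]

/-- divisors of `P (a y + b x)` -/
lemma exists_divisor (a b : ℤ) (h : IsCoprime a b) (Q : ℤ[X][X]) (hQ : Irreducible Q)
    (hQc : ∀ n : ℤ, Q ≠ C (C n)) (P : ℤ[X]) (hP : P ≠ 0) (hd : Q ∣ aeval (lin a b) P) :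
    ∃ R : ℤ[X], Irreducible R ∧ 1 ≤ R.natDegree ∧ R ∣ P ∧ Associated Q (aeval (lin a b) R) := by
  induction P using WfDvdMonoid.induction_on_irreducible with
  | zero => exact absurd rfl hP
  | unit u hu =>
    exact absurd (isUnit_of_dvd_unit hd (hu.map (aeval (lin a b)))) hQ.not_isUnit
  | mul p i hp hi ih =>
    rw [map_mul] at hd
    rcases hQ.prime.dvd_or_dvd hd with h1 | h1
    · by_cases h0 : i.natDegree = 0
      · exfalso
        have h2 := eq_C_of_natDegree_eq_zero h0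
        rw [h2, aeval_C] at h1
        have h3 : (algebraMap ℤ ℤ[X][X]) (i.coeff 0) = C (C (i.coeff 0)) := rfl
        rw [h3] at h1
        obtain ⟨B, hB⟩ := h1
        have h4 : i.coeff 0 ≠ 0 := by
          intro h5
          rw [h5, C_0] at h2
          exact hi.ne_zero h2
        have h5 : (C (C (i.coeff 0)) : ℤ[X][X]) ≠ 0 := by
          rw [Ne, C_eq_zero, C_eq_zero]
          exact h4
        have hQ0 : Q ≠ 0 := hQ.ne_zero
        have hB0 : B ≠ 0 := by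
          rintro rfl
          rw [mul_zero] at hB
          exact h5 hB
        have h6 := tdeg_mul Q B hQ0 hB0
        rw [← hB, tdeg_const] at h6
        exact hQc _ (const_of_tdeg Q (by omega))
      · exact ⟨i, hi, by omega, dvd_mul_right i p,
          hQ.associated_of_dvd (irreducible_comp a b h i hi) h1⟩
    · obtain ⟨R, h2, h3, h4, h5⟩ := ih hp h1
      exact ⟨R, h2, h3, dvd_mul_of_dvd_right h4 i, h5⟩

/-- the two possibilities for a pair of forms at the same scale -/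
def Same (a b a' b' : ℤ) (P P' : ℤ[X]) : Prop :=
  (a' = a ∧ b' = b ∧ ∃ R : ℤ[X], Irreducible R ∧ 1 ≤ R.natDegree ∧ R ∣ P ∧ R ∣ P') ∨
  (a' = -a ∧ b' = -b ∧ ∃ R : ℤ[X], Irreducible R ∧ 1 ≤ R.natDegree ∧ R ∣ P ∧ R.comp (-X) ∣ P')

/-- **Two primitive forms are not both near algebraic numbers.** -/
theorem two_forms (x : ℂ) (hx : MeasT x) (D : ℕ) : ∃ κ : ℝ, 0 < κ ∧ ∀ T : ℝ, ∃ c : ℝ, 0 < c ∧
    ∀ t : ℂ, ‖t‖ ≤ T → ∀ H : ℝ, ∀ (a b a' b' : ℤ) (P P' : ℤ[X]), IsCoprime a b → IsCoprime a' b' →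
      |(a : ℝ)| ≤ H → |(b : ℝ)| ≤ H → |(a' : ℝ)| ≤ H → |(b' : ℝ)| ≤ H → P ≠ 0 → P' ≠ 0 →
      Bdd1 D H P → Bdd1 D H P' → ‖aeval ((a : ℂ) * t + b * x) P‖ ≤ c * H ^ (-κ) →
      ‖aeval ((a' : ℂ) * t + b' * x) P'‖ ≤ c * H ^ (-κ) → Same a b a' b' P P' := by
  obtain ⟨κ, hκ, h⟩ := curve x hx (D + 1)
  refine ⟨κ, hκ, fun T => ?_⟩
  obtain ⟨c, hc, h⟩ := h T
  refine ⟨c, hc, fun t ht H a b a' b' P P' hab hab' ha hb ha' hb' hP hP' hPb hPb' hs hs' => ?_⟩
  have hH : 1 ≤ H := by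
    have h1 : P.coeff P.natDegree ≠ 0 := leadingCoeff_ne_zero.2 hP
    refine le_trans ?_ (hPb.2 P.natDegree)
    rw [← Int.cast_abs]
    exact_mod_cast Int.one_le_abs h1
  obtain ⟨Q, hQ, hQc, hQd⟩ := h t ht H hH
  have d1 := hQd (lin a b) P (bdd_lin (D + 1) (by omega) H a b ha hb) ⟨hPb.1.trans (by omega), hPb.2⟩
    (aeval_lin_ne a b hab P hP) (by rw [vl_aeval, evR_lin]; exact hs)
  have d2 := hQd (lin a' b') P' (bdd_lin (D + 1) (by omega) H a' b' ha' hb')
    ⟨hPb'.1.trans (by omega), hPb'.2⟩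
    (aeval_lin_ne a' b' hab' P' hP') (by rw [vl_aeval, evR_lin]; exact hs')
  obtain ⟨R, r1, r2, r3, r4⟩ := exists_divisor a b hab Q hQ hQc P hP d1
  obtain ⟨R', r1', r2', r3', r4'⟩ := exists_divisor a' b' hab' Q hQ hQc P' hP' d2
  have h2 : Associated (aeval (lin a b) R) (aeval (lin a' b') R') := r4.symm.trans r4'
  obtain ⟨w, hw⟩ := h2
  obtain ⟨r, hr, hru⟩ := Polynomial.isUnit_iff.1 w.isUnit
  obtain ⟨s, hs1, hsr⟩ := Polynomial.isUnit_iff.1 hr
  rw [← hru, ← hsr] at hw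
  -- R' up to sign
  have key : ∃ R'' : ℤ[X], aeval (lin a b) R = aeval (lin a' b') R'' ∧ Associated R'' R' := by
    rcases Int.isUnit_iff.1 hs1 with h3 | h3
    · refine ⟨R', ?_, Associated.refl _⟩
      rw [← hw, h3]
      simp
    · refine ⟨-R', ?_, (Associated.refl R').neg_left⟩
      rw [map_neg, ← hw, h3]
      simp only [C_neg, C_1]
      ring
  obtain ⟨R'', k1, k2⟩ := key
  rcases lin_unique a b a' b' hab hab' R R'' r2 k1 with ⟨e1, e2, e3⟩ | ⟨e1, e2, e3⟩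
  · left
    refine ⟨e1, e2, R, r1, r2, r3, ?_⟩
    rw [← e3]
    exact k2.dvd.trans r3'
  · right
    refine ⟨e1, e2, R, r1, r2, r3, ?_⟩
    rw [← e3]
    exact k2.dvd.trans r3'

end Pool.Agent.N695.NF
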